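import Pool.Agent.R942.ES.Whole

/-!
# Double coverings of rational ruled surfaces
-/

set_option autoImplicit false

namespace Pool.Agent.R942.DC

open Polynomial Module Pool.Agent.W111.HS.EC Pool.Agent.R942.ES

lemma zmod_two_eq : ∀ x : ZMod 2, x - 1 * (1 + 1) = 1 + 1 - x := by decide

section

variable {κ : Type} [Field κ]

/-- A monic polynomial `f = x ^ r + ∑ a_i x ^ i` of odd degree `r` in `x`, whose coefficient `a_i` is a
form of degree `2 n (r - i)` in two variables, written as a polynomial in `t`. -/
structure Branch (κ : Type) [Field κ] where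
  r : ℕ
  n : ℕ
  odd : Odd r
  pos : 1 ≤ n
  a : Fin r → κ[X]
  degree : ∀ i, (a i).natDegree ≤ 2 * n * (r - i)

/-- The value of `f` at the point `t` of the projective line over `L` and at `x`. -/
noncomputable def Branch.eval (f : Branch κ) (L : Type) [Field L] [Algebra κ L] (t : Option L)
    (x : L) : L :=
  x ^ f.r + ∑ i : Fin f.r, value (2 * f.n * (f.r - i)) (f.a i) L t * x ^ (i : ℕ)

/-- The number of points over `L` of the curve `f = 0`. -/
noncomputable def Branch.zeros (f : Branch κ) (L : Type) [Field L] [Algebra κ L] : ℕ :=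
  Nat.card {z : Option L × L // f.eval L z.1 z.2 = 0}

/-- The number of points over `L` of the surface `y² = f` (without the section at infinity). -/
noncomputable def Branch.points (f : Branch κ) (L : Type) [Field L] [Algebra κ L] : ℕ :=
  Nat.card {z : Option L × L × L // z.2.2 ^ 2 = f.eval L z.1 z.2.1}

/-- The involution `y ↦ -y`. -/
theorem points_mod (f : Branch κ) (L : Type) [Field L] [Fintype L] [Algebra κ L]
    (h2 : (2 : κ) ≠ 0) : ((f.points L : ℕ) : ZMod 2) = ((f.zeros L : ℕ) : ZMod 2) := by
  classical
  haveI : Fact (Nat.Prime 2) := ⟨Nat.prime_two⟩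
  have h2L : (2 : L) ≠ 0 := by
    have h1 := map_ne (κ := κ) (L := L) (n := 2) (by exact_mod_cast h2)
    exact_mod_cast h1
  let α := {z : Option L × L × L // z.2.2 ^ 2 = f.eval L z.1 z.2.1}
  let φ : Function.End α := fun z => ⟨(z.1.1, z.1.2.1, -z.1.2.2), by
    have := z.2
    simpa using this⟩
  have hφ : φ ^ 2 ^ 1 = 1 := by
    funext z
    apply Subtype.ext
    change ((z.1.1, z.1.2.1, - -z.1.2.2) : Option L × L × L) = z.1
    rw [neg_neg]
  have h3 := Equiv.Perm.card_fixedPoints_modEq (p := 2) (n := 1) hφ
  have h4 : Fintype.card (Function.fixedPoints φ) = f.zeros L := by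
    rw [Branch.zeros, Nat.card_eq_fintype_card]
    apply Fintype.card_congr
    refine
      { toFun := fun z => ⟨(z.1.1.1, z.1.1.2.1), ?_⟩
        invFun := fun z => ⟨⟨(z.1.1, z.1.2, 0), ?_⟩, ?_⟩
        left_inv := ?_
        right_inv := ?_ }
    · have h5 := z.1.2
      have h6 : -z.1.1.2.2 = z.1.1.2.2 := by
        have h7 := congrArg (fun w : α => w.1.2.2) z.2
        exact h7
      have h7 : z.1.1.2.2 = 0 := by
        have h8 : (2 : L) * z.1.1.2.2 = 0 := by linear_combination - h6
        exact (mul_eq_zero.1 h8).resolve_left h2L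
      rw [h7, zero_pow (by norm_num)] at h5
      exact h5.symm
    · change (0 : L) ^ 2 = _
      rw [z.2, zero_pow (by norm_num)]
    · apply Subtype.ext
      change ((z.1.1, z.1.2, -0) : Option L × L × L) = _
      rw [neg_zero]
    · intro z
      apply Subtype.ext
      apply Subtype.ext
      have h6 : -z.1.1.2.2 = z.1.1.2.2 := by
        have h7 := congrArg (fun w : α => w.1.2.2) z.2
        exact h7
      have h7 : z.1.1.2.2 = 0 := by
        have h8 : (2 : L) * z.1.1.2.2 = 0 := by linear_combination - h6
        exact (mul_eq_zero.1 h8).resolve_left h2L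
      change ((z.1.1.1, z.1.1.2.1, 0) : Option L × L × L) = z.1.1
      rw [← h7]
    · intro z
      rfl
  rw [h4] at h3
  rw [Branch.points, Nat.card_eq_fintype_card]
  exact (ZMod.natCast_eq_natCast_iff _ _ _).2 h3

/-- `W` is the orthogonal complement of the classes of the fibre, of the section at infinity, and of the
exceptional curves of the resolution, in the second cohomology of the surface `y² = f`, and `Φ` is the
Frobenius on it. The trace formula of Grothendieck and Lefschetz: the number of points over `L` of the
surface is `1 + |L|² + 2 |L| + tr (Φ ^ [L : κ] | W)` plus the traces on the classes of the exceptional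
curves, and it is also the sum of `points`, of the number `|L| + 1` of points of the section at
infinity, and of the same traces. -/
structure IsCohomology (f : Branch κ) {E W : Type} [Field E] [AddCommGroup W]
    [Module E W] (Φ : Module.End E W) : Prop where
  lefschetz : ∀ (L : Type) [Field L] [Fintype L] [Algebra κ L],
    LinearMap.trace E W (Φ ^ finrank κ L) =
      (f.points L : E) - (Fintype.card L : E) * ((Fintype.card L : E) + 1)

/-- `P` is the characteristic polynomial of the Frobenius on the first cohomology of the curve `f = 0`: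
it has integral coefficients and the constant coefficient `1`, `P = ∏_{x ∈ A} (1 - x T)`, and the
number of points of the curve over `L` is `1 + |L| - ∑_{x ∈ A} x ^ [L : κ]`. -/
structure IsCurvePolynomial (f : Branch κ) {E : Type} [Field E] (P : ℤ[X]) (A : Multiset E) :
    Prop where
  constant : P.coeff 0 = 1
  roots : P.map (Int.castRingHom E) = (A.map fun x => 1 - C x * X).prod
  points : ∀ (L : Type) [Field L] [Fintype L] [Algebra κ L],
    (f.zeros L : E) = 1 + (Fintype.card L : E) - (A.map fun x => x ^ finrank κ L).sum

lemma gs_coe {E : Type} [Field E] (A : Multiset E) :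
    (((A.map fun x => 1 - C x * X).prod : E[X]) : PowerSeries E) = gs A := by
  have h2 := map_multiset_prod (Polynomial.coeToPowerSeries.ringHom (R := E))
    (A.map fun x => 1 - C x * X)
  rw [Multiset.map_map] at h2
  refine Eq.trans h2 ?_
  rw [gs]
  congr 1
  refine Multiset.map_congr rfl fun x _ => ?_
  simp

theorem main [Fintype κ] (h2 : (2 : κ) ≠ 0) (f : Branch κ) {E : Type} [Field E] [CharZero E]
    [IsAlgClosed E] {W : Type} [AddCommGroup W] [Module E W] [FiniteDimensional E W]
    {Φ : Module.End E W} (hC : IsCohomology f Φ) {P : ℤ[X]} {A : Multiset E}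
    (hP : IsCurvePolynomial f P A) (hsq : Squarefree (P.map (Int.castRingHom (ZMod 2))))
    (hdim : finrank E W = (P.map (Int.castRingHom (ZMod 2))).natDegree) :
    Φ.charpoly.Separable ∧ Φ.IsSemisimple := by
  haveI : Fact (Nat.Prime 2) := ⟨Nat.prime_two⟩
  -- the number of points over the extensions
  obtain ⟨p, hpc⟩ := CharP.exists κ
  have := hpc
  have hp : Fact p.Prime := ⟨CharP.char_is_prime κ p⟩
  have hodd : ∀ n : ℕ, ((Fintype.card κ ^ n : ℕ) : ZMod 2) = 1 := by
    have h1 : ¬ 2 ∣ Fintype.card κ := by
      intro h7
      obtain ⟨n, hp', hn⟩ := FiniteField.card κ p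
      rw [hn] at h7
      have h8 := (Nat.prime_dvd_prime_iff_eq Nat.prime_two hp').1
        (Nat.prime_two.dvd_of_dvd_pow h7)
      apply h2
      have h9 := CharP.cast_eq_zero κ p
      rw [← h8] at h9
      exact_mod_cast h9
    have h3 : Fintype.card κ % 2 = 1 := Nat.two_dvd_ne_zero.1 h1
    intro n
    rw [Nat.cast_pow, ← ZMod.natCast_mod, h3]
    simp
  have hex : ∀ n : ℕ, 1 ≤ n → ∃ z w : ℤ, LinearMap.trace E W (Φ ^ n) = z ∧
      (A.map fun x => x ^ n).sum = (w : E) ∧ ((z : ℤ) : ZMod 2) = ((w : ℤ) : ZMod 2) := by
    intro n hn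
    have hn0 : NeZero n := ⟨by omega⟩
    let L := FiniteField.Extension κ p n
    have hfr : finrank κ L = n := FiniteField.finrank_extension κ p n
    have hfin : Finite L := inferInstance
    letI : Fintype L := Fintype.ofFinite L
    have hcard : Fintype.card L = Fintype.card κ ^ n := by
      have h1 := FiniteField.natCard_extension κ p n
      rw [Nat.card_eq_fintype_card, Nat.card_eq_fintype_card] at h1
      exact h1
    refine ⟨(f.points L : ℤ) - (Fintype.card L : ℤ) * ((Fintype.card L : ℤ) + 1),
      1 + (Fintype.card L : ℤ) - (f.zeros L : ℤ), ?_, ?_, ?_⟩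
    · have h1 := hC.lefschetz L
      rw [hfr] at h1
      rw [h1]
      push_cast
      rfl
    · have h1 := hP.points L
      rw [hfr] at h1
      push_cast
      linear_combination h1
    · have h1 := points_mod f L h2
      have h3 : ((Fintype.card L : ℕ) : ZMod 2) = 1 := by rw [hcard, hodd]
      push_cast
      rw [h1, h3]
      exact zmod_two_eq _
  choose! T V hT hV hTV using hex
  -- the logarithmic derivative over the integers
  have hlogE : IsLog ((P.map (Int.castRingHom E) : E[X]) : PowerSeries E)
      (A.map fun x => lg 1 x).sum := by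
    rw [hP.roots, gs_coe]
    exact isLog_gs A
  let V' : ℕ → ℤ := fun n => if n = 0 then 0 else V n
  have hlogZ : IsLog (P : PowerSeries ℤ) (PowerSeries.mk V') := by
    have hinj : Function.Injective (PowerSeries.map (Int.castRingHom E)) := by
      intro F G h
      ext n
      have h1 := congrArg (PowerSeries.coeff n) h
      rw [PowerSeries.coeff_map, PowerSeries.coeff_map] at h1
      exact Int.cast_injective h1
    have hmapP : PowerSeries.map (Int.castRingHom E) (P : PowerSeries ℤ) =
        ((P.map (Int.castRingHom E) : E[X]) : PowerSeries E) := by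
      ext n
      rw [PowerSeries.coeff_map, Polynomial.coeff_coe, Polynomial.coeff_coe, coeff_map]
    have hmapV : PowerSeries.map (Int.castRingHom E) (PowerSeries.mk V') =
        (A.map fun x => lg 1 x).sum := by
      ext n
      rw [PowerSeries.coeff_map, PowerSeries.coeff_mk]
      rcases Nat.eq_zero_or_pos n with rfl | hn
      · change ((V' 0 : ℤ) : E) = _
        rw [map_multiset_sum, Multiset.map_map]
        have h1 : A.map ((PowerSeries.coeff 0) ∘ fun x => lg 1 x) = A.map fun _ => (0 : E) := by
          refine Multiset.map_congr rfl fun x _ => ?_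
          simp [lg]
        rw [h1]
        simp [V']
      · rw [coeff_gs A n hn, hV n hn]
        change ((V' n : ℤ) : E) = _
        have h1 : V' n = V n := if_neg (by omega)
        rw [h1]
    unfold IsLog at hlogE ⊢
    apply hinj
    rw [map_neg, map_mul, map_mul, PowerSeries.map_X, hmapP, hmapV, ← hlogE, ← hmapP]
    congr 2
    ext n
    rw [PowerSeries.coeff_map, PowerSeries.coeff_derivative, PowerSeries.coeff_derivative,
      PowerSeries.coeff_map, map_mul]
    simp
  have hlog2 := isLog_map (Int.castRingHom (ZMod 2)) hlogZ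
  have hmap2 : PowerSeries.map (Int.castRingHom (ZMod 2)) (P : PowerSeries ℤ) =
      ((P.map (Int.castRingHom (ZMod 2)) : (ZMod 2)[X]) : PowerSeries (ZMod 2)) := by
    ext n
    rw [PowerSeries.coeff_map, Polynomial.coeff_coe, Polynomial.coeff_coe, coeff_map]
  rw [hmap2] at hlog2
  refine separable_of_traces Φ T hT (P.map (Int.castRingHom (ZMod 2))) hsq ?_ hdim.symm _ hlog2 ?_
  · rw [coeff_map, hP.constant, map_one]
  · intro n hn
    rw [PowerSeries.coeff_map, PowerSeries.coeff_mk, hTV n hn]
    change ((V' n : ℤ) : ZMod 2) = _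
    have h1 : V' n = V n := if_neg (by omega)
    rw [h1]

end

end Pool.Agent.R942.DC
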